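import Pool.Agent.Work.MP_7b0bad_ag.Bd.B15
import Pool.Agent.Work.MP_7b0bad_ag.Bd.B12
import Pool.Agent.Work.MP_7b0bad_ag.Bd.B13

/-!
# MP_7b0bad_ag: AllH without hypotheses
-/

set_option autoImplicit false

namespace MP7b0bad

theorem all_HAut3 : HAut3 := prf_HAut3
theorem all_HCrit : HCrit := prf_HCrit all_GB all_GJoin
theorem all_HCyc : HCyc := prf_HCyc
theorem all_HCyc6 : HCyc6 := prf_HCyc6
theorem all_HEmb : HEmb := prf_HEmb all_HAut3 all_HCyc all_HCyc6
theorem all_HLift : HLift := prf_HLift all_GSC all_GPS all_GPSE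
theorem all_HMin : HMin := prf_HMin
theorem all_HNor : HNor := prf_HNor all_GCop
theorem all_HThree : HThree := prf_HThree all_HNor
theorem all_HA1 : HA1 := prf_HA1 all_HNor
theorem all_HAb : HAb := prf_HAb all_HNor all_GCop
theorem all_HAlt2 : HAlt2 := prf_HAlt2 all_HEmb all_HNor
theorem all_HAlt3 : HAlt3 := prf_HAlt3 all_HEmb all_HNor all_HThree
theorem all_HB1 : HB1 := prf_HB1 all_HNor all_HLift
theorem all_HRed : HRed := prf_HRed all_HLift all_HNor all_HAb all_HMin all_HB1 all_HA1
theorem all_HMain2 : HMain2 := prf_HMain2 all_HRed all_HCrit all_HAlt2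
theorem all_HMain3 : HMain3 := prf_HMain3 all_HRed all_HCrit all_HAlt3 all_YBlk

/-- the criterion for all algebraically closed fields of characteristic `p` -/
theorem all_HCritK (k : Type) [Field k] [IsAlgClosed k] (p : ℕ) [Fact p.Prime] [CharP k p]
    (G : Type) [Group G] [Finite G] (P : Subgroup G) (hP : IsPGroup p P) (h : Gam p P = ⊤) :
    Occurs k G P :=
  all_QOcc k p G P hP (all_HCrit p (fun (G : Type) [Group G] (P : Subgroup G) => Rel k G P)
    (YMain_relAx all_QIso all_QRP all_QR1 all_QR2 all_YBlk k p) G P hP h)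

end MP7b0bad
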