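import Pool.Agent.Work.MP_7b0bad_ag.AllH
import Pool.Agent.Work.MP_7b0bad_ag.Bd.B16
import Pool.Agent.Work.MP_7b0bad_ag.Bd.B15

set_option autoImplicit false

/-!
# MP_7b0bad_ag: composition factors, final form
-/

namespace MP7b0bad

theorem all_HSixM : HSixM :=
  prf_HSixM all_HNor prf_HSixA (prf_HSixB prf_HSixA) prf_HSixC

theorem all_HAlt2M (hHSixM : HSixM) : HAlt2M := prf_HAlt2M all_HEmb all_HNor all_HAut3 hHSixM

theorem all_HRedM : HRedM :=
  prf_HRedM all_HLift all_HAb all_HMin (prf_HB1M all_HNor all_HLift) all_HA1 (prf_HA1O all_HNor)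

theorem HFinB (hHSixM : HSixM) (p : ℕ) [Fact p.Prime] (G : Type) [Group G] [Finite G]
    (P : Subgroup G) (hP : IsPGroup p P) (hn : Subgroup.normalClosure (P : Set G) = ⊤)
    (h : ∀ (K : Subgroup G) [K.Normal] (N L : Subgroup (G ⧸ K)), N.Normal → L ≤ N →
      (L.subgroupOf N).Normal → IsSimpleGroup L → p ∣ Nat.card L → (∃ a b : L, a * b ≠ b * a) →
      InvGen p L ∨
      (p ≤ 3 ∧ ∃ n : ℕ, 5 ≤ n ∧ Nonempty (L ≃* alternatingGroup (Fin n))) ∨
      (p ≠ 2 ∧ ∃ (F : Type) (_ : Field F) (_ : Finite F), p ∣ Nat.card F - 1 ∧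
        Nonempty (L ≃* Matrix.ProjectiveSpecialLinearGroup (Fin 2) F)) ∨
      (p = 2 ∧ ∀ φ : L ≃* L, (∀ x, φ (φ x) = x) → ∀ x : L, orderOf x = 4 → φ x ≠ x⁻¹)) :
    Gam p P = ⊤ := by
  refine all_HRedM p G P hP hn ?_
  intro K _ N L hN hLN hLN' hs hpL hab
  have hp : p.Prime := Fact.out
  rcases h K N L hN hLN hLN' hs hpL hab with h1 | ⟨h1, n, hn5, ⟨e⟩⟩ | ⟨h1, F, hF, hFf, hpF, ⟨e⟩⟩ |
    ⟨h1, h2⟩
  · exact prf_HGenM all_HNor all_GCop p L hs h1
  · have h23 : p = 2 ∨ p = 3 := by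
      have := hp.two_le
      omega
    rcases h23 with rfl | rfl
    · exact HRedM_starIso _ _ e.symm (all_HAlt2M hHSixM n hn5)
    · exact HRedM_starIso _ _ e.symm (all_HAlt3 n hn5).2
  · have h2 : InvGen p (Matrix.ProjectiveSpecialLinearGroup (Fin 2) F) :=
      prf_HPSL3 prf_HPSL1 prf_HPSL2 p h1 F hpF
    have := hs
    have hsF : IsSimpleGroup (Matrix.ProjectiveSpecialLinearGroup (Fin 2) F) := by
      have : Nontrivial (Matrix.ProjectiveSpecialLinearGroup (Fin 2) F) := e.symm.toEquiv.nontrivial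
      exact IsSimpleGroup.isSimpleGroup_of_surjective e.toMonoidHom e.surjective
    have : Finite (Matrix.ProjectiveSpecialLinearGroup (Fin 2) F) := Finite.of_equiv L e.toEquiv
    exact HRedM_starIso _ _ e.symm (prf_HGenM all_HNor all_GCop p _ hsF h2)
  · subst h1
    exact (prf_HInv all_HNor L hs hab h2).2

end MP7b0bad
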