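import Pool.Agent.Work.MP_7b0bad_ag.Bd.B15

set_option autoImplicit false

/-!
# MP_7b0bad_ag: generation by `N(P)`, `P`-invariant subgroups of order prime to `p` and blocks
-/

namespace MP7b0bad

/-- elements normalising `P` normalise `Gam` -/
theorem HFinA_norm (p : ℕ) {G : Type} [Group G] (P : Subgroup G) :
    Subgroup.normalizer (P : Set G) ≤ Subgroup.normalizer ((Gam p P : Subgroup G) : Set G) := by
  have key : ∀ c ∈ Subgroup.normalizer (P : Set G),
      ∀ x ∈ Gam p P, c * x * c⁻¹ ∈ Gam p P := by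
    intro c hc x hx
    have h1 : Gam p P ≤ (Gam p P).comap (MulAut.conj c).toMonoidHom := by
      refine sSup_le ?_
      rintro Y ⟨P', h1, h2, h3, h4⟩
      rw [← Subgroup.map_le_iff_le_comap]
      refine HNor_map _ ?_ h2 h3 h4
      rintro _ ⟨q, hq, rfl⟩
      have := (Subgroup.mem_normalizer_iff.1 hc q).1 (h1 hq)
      simpa [MulAut.conj_apply] using this
    have := h1 hx
    rw [Subgroup.mem_comap] at this
    simpa [MulAut.conj_apply] using this
  intro c hc
  rw [Subgroup.mem_normalizer_iff]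
  intro x
  constructor
  · exact key c hc x
  · intro hx
    have h2 := key c⁻¹ (Subgroup.inv_mem _ hc) _ hx
    have e : c⁻¹ * (c * x * c⁻¹) * c⁻¹⁻¹ = x := by group
    rwa [e] at h2

theorem HFinA (hHNor : HNor) (hGCop : GCop) (p : ℕ) [Fact p.Prime] (G : Type) [Group G] [Finite G]
    (P : Subgroup G) (hP : IsPGroup p P) (hn : Subgroup.normalClosure (P : Set G) = ⊤)
    (h : sSup {Y : Subgroup G | Y ≤ Subgroup.normalizer (P : Set G) ∨
      (¬ p ∣ Nat.card Y ∧ P ≤ Subgroup.normalizer (Y : Set G)) ∨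
      (PSol p Y ∧ ∃ Q : Subgroup G, Q ≤ P ∧ Q ≤ Y ∧ nclIn Y Q = Y)} = ⊤) :
    Gam p P = ⊤ := by
  have hK : Subgroup.normalizer ((Gam p P : Subgroup G) : Set G) = ⊤ := by
    rw [eq_top_iff, ← h]
    refine sSup_le ?_
    rintro Y (hY | ⟨hY, hPY⟩ | ⟨hY, Q, hQP, hQY, hncl⟩)
    · exact hY.trans (HFinA_norm p P)
    · have hinv : ∀ q ∈ P, ∀ a ∈ Y, q * a * q⁻¹ ∈ Y := fun q hq a ha =>
        (Subgroup.mem_normalizer_iff.1 (hPY hq) a).1 ha
      intro a ha
      obtain ⟨h1, -, -⟩ := hGCop p G Y P hY hP hinv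
      obtain ⟨d, hd, c, -, hc, hdc⟩ := h1 a ha
      rw [hdc]
      refine Subgroup.mul_mem _ ?_ ?_
      · exact Subgroup.le_normalizer (HGenM_le hGCop p _ _ hY hP hinv hd)
      · exact HGenM_cent hHNor p _ hP _ hc
    · have : Y ≤ Gam p P := le_sSup ⟨Q, hQP, hQY, hncl, hY⟩
      exact this.trans Subgroup.le_normalizer
  have hN : (Gam p P).Normal := Subgroup.normalizer_eq_top_iff.1 hK
  rw [eq_top_iff, ← hn]
  exact Subgroup.normalClosure_le_normal (hHNor p G P hP).1

end MP7b0bad
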