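import Pool.Agent.Work.MP_7b0bad_ag.AllH
import Pool.Agent.Work.MP_7b0bad_ag.Bd.B17

set_option autoImplicit false

/-!
# MP_7b0bad_ag: quotients of `SL_n(F)`, final form
-/

namespace MP7b0bad

theorem all_HSL3 : HSL3 := prf_HSL3 all_HNor all_GCop prf_HSL1 prf_HSL2

theorem HFinC (p : ℕ) [Fact p.Prime] (F : Type) [Field F] [Finite F] (n : ℕ) (hpF : (p : F) ≠ 0)
    (G : Type) [Group G] (f : Matrix.SpecialLinearGroup (Fin n) F →* G)
    (hf : Function.Surjective f) (P : Subgroup G)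
    (h : ∃ s : Matrix.SpecialLinearGroup (Fin n) F, (∃ m : ℕ, s ^ p ^ m = 1) ∧ f s ∈ P ∧
      s ∉ Subgroup.center (Matrix.SpecialLinearGroup (Fin n) F) ∧
      ∃ W : Submodule F (Fin n → F), W ≠ ⊥ ∧ W ≠ ⊤ ∧
        ∀ w ∈ W, (s : Matrix (Fin n) (Fin n) F).mulVec w ∈ W) :
    Gam p P = ⊤ := by
  obtain ⟨s, ⟨m, hm⟩, hsP, hsc, W, hW0, hW1, hW⟩ := h
  have hs : IsPGroup p (Subgroup.zpowers s) := by
    rintro ⟨g, hg⟩
    obtain ⟨k, hk⟩ := Subgroup.mem_zpowers_iff.mp hg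
    refine ⟨m, ?_⟩
    apply Subtype.ext
    simp only [SubmonoidClass.mk_pow, OneMemClass.coe_one]
    rw [← hk, ← zpow_natCast, ← zpow_mul, mul_comm, zpow_mul, zpow_natCast, hm, one_zpow]
  have h1 := all_HSL3 p F n hpF s W hs hsc hW0 hW1 hW
  have h2 : (Gam p (Subgroup.zpowers s)).map f ≤ Gam p P := by
    rw [Subgroup.map_le_iff_le_comap]
    refine sSup_le ?_
    rintro Y ⟨P', h1, h2, h3, h4⟩
    rw [← Subgroup.map_le_iff_le_comap]
    refine HNor_map _ ?_ h2 h3 h4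
    rintro _ ⟨q, hq, rfl⟩
    obtain ⟨k, rfl⟩ := Subgroup.mem_zpowers_iff.1 (h1 hq)
    rw [map_zpow]
    exact Subgroup.zpow_mem _ hsP k
  rw [h1, Subgroup.map_top_of_surjective f hf] at h2
  exact eq_top_iff.2 h2

end MP7b0bad
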